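import Pool.Agent.Helper486.TP.Final

/-! # Lower envelopes: comparison with the minima over all subfamilies of a given size -/

set_option autoImplicit false

open MeasureTheory Set Filter Topology Metric
open scoped InnerProductSpace ContDiff Laplacian ENNReal

namespace Pool.Agent.TH332.Env

open Pool.Agent.Helper486.TP

variable {n : ℕ} {Ω : Set (E n)}

/-- the inequality for finite families, compared with the subfamilies of size `r` -/
theorem fam_le_r (hn : 0 < n) (hΩ : IsOpen Ω) {ι : Type} [DecidableEq ι] {w : ι → E n → ℝ}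
    (hw : ∀ i, ∃ P N, HasLap Ω (w i) P N)
    {lp ln : Measure (E n)} (hlp : FinOn Ω lp) (hln : FinOn Ω ln) {r : ℕ} (hr : 2 ≤ r)
    (h : ∀ (J : Finset ι) (hJ : J.Nonempty), J.card = r → ∀ φ, TestOn Ω φ → (∀ x, 0 ≤ φ x) →
      (∫ x, φ x ∂lp) - (∫ x, φ x ∂ln) ≤ ∫ x, J.inf' hJ (fun i => w i x) * (Δ φ) x)
    (k : ℕ) : ∀ (s : Finset ι) (hs : s.Nonempty), s.card = k + r →
      ∀ φ, TestOn Ω φ → (∀ x, 0 ≤ φ x) →
      (∫ x, φ x ∂lp) - (∫ x, φ x ∂ln) ≤ ∫ x, s.inf' hs (fun i => w i x) * (Δ φ) x := by
  induction k with
  | zero =>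
    intro s hs hcard φ hφ hφ0
    exact h s hs (by omega) φ hφ hφ0
  | succ k ih =>
    intro s hs hcard φ hφ hφ0
    -- pick three elements
    obtain ⟨a, s1, ha, rfl, hs1⟩ := Finset.card_eq_succ.1 (show s.card = (k + r) + 1 by omega)
    obtain ⟨b, s2, hb, rfl, hs2⟩ := Finset.card_eq_succ.1 (show s1.card = (k + r - 1) + 1 by omega)
    obtain ⟨c, R, hc, rfl, hR⟩ := Finset.card_eq_succ.1 (show s2.card = (k + r - 2) + 1 by omega)
    have hab : a ≠ b := by rintro rfl; exact ha (Finset.mem_insert_self _ _)
    have hac : a ≠ c := by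
      rintro rfl; exact ha (Finset.mem_insert_of_mem (Finset.mem_insert_self _ _))
    have hbc : b ≠ c := by rintro rfl; exact hb (Finset.mem_insert_self _ _)
    have haR : a ∉ R := fun h => ha (Finset.mem_insert_of_mem (Finset.mem_insert_of_mem h))
    have hbR : b ∉ R := fun h => hb (Finset.mem_insert_of_mem h)
    -- the three families with one element removed
    have hcab : (insert a (insert b R)).card = k + r := by
      rw [Finset.card_insert_of_notMem, Finset.card_insert_of_notMem hbR]
      · omega
      · rw [Finset.mem_insert, not_or]; exact ⟨hab, haR⟩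
    have hcac : (insert a (insert c R)).card = k + r := by
      rw [Finset.card_insert_of_notMem, Finset.card_insert_of_notMem hc]
      · omega
      · rw [Finset.mem_insert, not_or]; exact ⟨hac, haR⟩
    have hcbc : (insert b (insert c R)).card = k + r := by
      rw [Finset.card_insert_of_notMem, Finset.card_insert_of_notMem hc]
      · omega
      · rw [Finset.mem_insert, not_or]; exact ⟨hbc, hbR⟩
    have nab := ih (insert a (insert b R)) (Finset.insert_nonempty _ _) hcab
    have nac := ih (insert a (insert c R)) (Finset.insert_nonempty _ _) hcac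
    have nbc := ih (insert b (insert c R)) (Finset.insert_nonempty _ _) hcbc
    obtain ⟨Pa, Na, La⟩ := fam_hasLap hn hΩ hw (insert a R) (Finset.insert_nonempty _ _)
    obtain ⟨Pb, Nb, Lb⟩ := fam_hasLap hn hΩ hw (insert b R) (Finset.insert_nonempty _ _)
    obtain ⟨Pc, Nc, Lc⟩ := fam_hasLap hn hΩ hw (insert c R) (Finset.insert_nonempty _ _)
    obtain ⟨P₀, N₀, L0⟩ := Lb.exists_min hn hΩ Lc
    obtain ⟨P₁, N₁, L1⟩ := La.exists_min hn hΩ Lc
    obtain ⟨P₂, N₂, L2⟩ := La.exists_min hn hΩ Lb
    obtain ⟨P₃, N₃, L3⟩ := L2.exists_min hn hΩ Lc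
    have e2 : ∀ (p q : ι) x, min ((insert p R).inf' (Finset.insert_nonempty _ _) (fun i => w i x))
        ((insert q R).inf' (Finset.insert_nonempty _ _) (fun i => w i x)) =
        (insert p (insert q R)).inf' (Finset.insert_nonempty _ _) (fun i => w i x) := by
      intro p q x
      have h1 := Finset.inf'_union (Finset.insert_nonempty p R) (Finset.insert_nonempty q R)
        (fun i => w i x)
      have h2 : insert p R ∪ insert q R = insert p (insert q R) := by
        ext i; simp only [Finset.mem_union, Finset.mem_insert]; tauto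
      refine h1.symm.trans ?_
      exact Finset.inf'_congr _ h2 fun i _ => rfl
    have e3 : ∀ x, min (min ((insert a R).inf' (Finset.insert_nonempty _ _) (fun i => w i x))
        ((insert b R).inf' (Finset.insert_nonempty _ _) (fun i => w i x)))
        ((insert c R).inf' (Finset.insert_nonempty _ _) (fun i => w i x)) =
        (insert a (insert b (insert c R))).inf' hs (fun i => w i x) := by
      intro x
      rw [e2]
      have h1 := Finset.inf'_union (Finset.insert_nonempty a (insert b R))
        (Finset.insert_nonempty c R) (fun i => w i x)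
      have h2 : insert a (insert b R) ∪ insert c R = insert a (insert b (insert c R)) := by
        ext i; simp only [Finset.mem_union, Finset.mem_insert]; tauto
      refine h1.symm.trans ?_
      exact Finset.inf'_congr _ h2 fun i _ => rfl
    have key := three hn hΩ L0 L1 L2 L3 hlp hln
      (fun ψ hψ hψ0 => by simpa only [e2] using nbc ψ hψ hψ0)
      (fun ψ hψ hψ0 => by simpa only [e2] using nac ψ hψ hψ0)
      (fun ψ hψ hψ0 => by simpa only [e2] using nab ψ hψ hψ0)
      φ hφ hφ0
    simpa only [e3] using key

end Pool.Agent.TH332.Env
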